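import Pool.Agent.J4H39.K9

/-!
# The choice of the parameters, for tuples

(P2) of phase 2 of project KT (helper39), adapted by helper75 from `PF_of` and `params` of helper39.
-/

set_option autoImplicit false

namespace Pool.Agent.J4H75.KT

open Finset Filter Real
open Pool.Agent.J4H39

theorem PFK_of {K n s k k' δ b M G N e u z : ℕ} {η ε' κ' L : ℝ} (hη0 : 0 < η) (hη1 : η ≤ 1 / 4) (hε' : 0 ≤ ε')
    (hN : (2 : ℝ) ^ L ≤ N) (hb1 : (2 : ℝ) ^ (kn n * s) ≤ b) (hb2 : (b : ℝ) ≤ 2 ^ (kn n * s + 2))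
    (hNM : (N : ℝ) ≤ 2 * ((M + 1) * b)) (heη : (2 : ℝ) ^ (-(e : ℝ)) ≤ η) (heG : ((G : ℝ) + 3) ≤ 2 ^ (e : ℝ))
    (C1 : (δ : ℝ) + n + 5 + e ≤ (4 / 5) ^ n * s) (C2 : (e : ℝ) + 3 + (kn n - th0) * s + δ ≤ 2 * u)
    (C3 : (k' : ℝ) + 2 + δ + th0 * s ≤ L) (C4 : κ' * k + 2 + δ + th0 * s ≤ L) (C5 : k' ≤ k)
    (hns : ∀ ρ : ℤ, |ρ| ≤ 4 ^ u → ns k' (0, ρ) ≤ ε') (hTK : TK K k (1 * z ^ 12) (1 * z ^ 14) ((2 : ℝ) ^ (κ' * k)) ε')
    (hδz : δ ≤ z ^ 12) : PFK K n s k k' δ b M (⌈((G : ℝ) + 2) * (b * (2 : ℝ) ^ ((δ : ℝ) - th0 * s))⌉₊) G η ε' := by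
  have hth := th0_gt
  have hth1 := th0_lt
  have hgap := kn_gap n
  have hb0 : (0 : ℝ) < b := lt_of_lt_of_le (by positivity) hb1
  have hln := ln_le n s
  -- mass of the blocks
  have hmass : (2 : ℝ) ^ (L - 2 - δ - th0 * s) ≤ ((M : ℝ) + 1) * (b * (1 / 2) * (2 : ℝ) ^ (-(δ : ℝ) - th0 * s)) := by
    have e1 : (2 : ℝ) ^ (L - 2 - δ - th0 * s) = 2 ^ L * (1 / 4) * 2 ^ (-(δ : ℝ) - th0 * s) := by
      have : L - 2 - (δ : ℝ) - th0 * s = L + (-(2 : ℝ)) + (-(δ : ℝ) - th0 * s) := by ring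
      rw [this, Real.rpow_add (by norm_num), Real.rpow_add (by norm_num)]
      congr 2
      rw [Real.rpow_neg (by norm_num)]
      norm_num
    rw [e1]
    have e2 : ((M : ℝ) + 1) * (b * (1 / 2) * (2 : ℝ) ^ (-(δ : ℝ) - th0 * s)) =
        ((M + 1) * b * (1 / 2)) * (2 : ℝ) ^ (-(δ : ℝ) - th0 * s) := by ring
    rw [e2]
    apply mul_le_mul_of_nonneg_right _ (by positivity)
    linarith
  refine ⟨C5, hη0, hη1, hε', ?_, Nat.le_ceil _, ?_, ?_, ?_⟩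
  · -- rounding errors
    have h1 : ((n : ℝ) + 1) ≤ 2 ^ (n : ℝ) := by
      rw [Real.rpow_natCast]
      have : n + 1 ≤ 2 ^ n := Nat.lt_two_pow_self
      exact_mod_cast this
    have h2 : (2 : ℝ) ^ (th0 * s + (1 - th0) * ln n s) ≤ 2 ^ (th0 * s + (1 - th0) * ((4 / 5) ^ n * s + 5)) := by
      apply Real.rpow_le_rpow_of_exponent_le (by norm_num)
      have := mul_le_mul_of_nonneg_left hln (show 0 ≤ 1 - th0 by linarith)
      linarith
    have h3 : ((n : ℝ) + 1) * (2 : ℝ) ^ (δ : ℝ) * (2 : ℝ) ^ (th0 * s + (1 - th0) * ln n s) ≤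
        2 ^ (n : ℝ) * (2 : ℝ) ^ (δ : ℝ) * 2 ^ (th0 * s + (1 - th0) * ((4 / 5) ^ n * s + 5)) := by
      apply mul_le_mul _ h2 (by positivity) (by positivity)
      exact mul_le_mul_of_nonneg_right h1 (by positivity)
    refine h3.trans ?_
    have h4 : (2 : ℝ) ^ (-(e : ℝ)) * 2 ^ (kn n * s) ≤ η * b := mul_le_mul heη hb1 (by positivity) hη0.le
    refine le_trans ?_ h4
    rw [← Real.rpow_add (by norm_num), ← Real.rpow_add (by norm_num), ← Real.rpow_add (by norm_num)]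
    apply Real.rpow_le_rpow_of_exponent_le (by norm_num)
    have hs0 : (0 : ℝ) ≤ s := by positivity
    have h5 := mul_le_mul_of_nonneg_right hgap hs0
    have h6 : (kn n - th0 - (1 - th0) * (4 / 5) ^ n) * (s : ℝ) = kn n * s - th0 * s - (1 - th0) * ((4 / 5) ^ n * s) := by ring
    rw [h6] at h5
    have h7 : (1 - th0) * ((4 / 5 : ℝ) ^ n * s + 5) = (1 - th0) * ((4 / 5) ^ n * s) + 5 - 5 * th0 := by ring
    rw [h7]
    linarith
  · -- the shifts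
    intro ρ hρ
    apply hns
    have hX1 : (1 : ℝ) ≤ b * (2 : ℝ) ^ ((δ : ℝ) - th0 * s) := by
      have h1 : (2 : ℝ) ^ (kn n * s) * (2 : ℝ) ^ ((δ : ℝ) - th0 * s) ≤ b * (2 : ℝ) ^ ((δ : ℝ) - th0 * s) :=
        mul_le_mul_of_nonneg_right hb1 (by positivity)
      refine le_trans ?_ h1
      rw [← Real.rpow_add (by norm_num)]
      apply Real.one_le_rpow (by norm_num)
      have : th0 * s ≤ kn n * s := mul_le_mul_of_nonneg_right (kn_gt n).le (by positivity)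
      have : (0 : ℝ) ≤ δ := by positivity
      linarith
    have h2 : ((⌈((G : ℝ) + 2) * (b * (2 : ℝ) ^ ((δ : ℝ) - th0 * s))⌉₊ : ℕ) : ℝ) ≤
        ((G : ℝ) + 3) * (b * (2 : ℝ) ^ ((δ : ℝ) - th0 * s)) := by
      have := Nat.ceil_lt_add_one (show 0 ≤ ((G : ℝ) + 2) * (b * (2 : ℝ) ^ ((δ : ℝ) - th0 * s)) by positivity)
      linarith
    have h3 : ((G : ℝ) + 3) * (b * (2 : ℝ) ^ ((δ : ℝ) - th0 * s)) ≤ 2 ^ (e : ℝ) * (2 ^ (kn n * s + 2) * (2 : ℝ) ^ ((δ : ℝ) - th0 * s)) := by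
      apply mul_le_mul heG _ (by positivity) (by positivity)
      exact mul_le_mul_of_nonneg_right hb2 (by positivity)
    rw [← Real.rpow_add (by norm_num), ← Real.rpow_add (by norm_num)] at h3
    have h4 : (2 : ℝ) * 2 ^ ((e : ℝ) + (kn n * s + 2 + ((δ : ℝ) - th0 * s))) ≤ 4 ^ u := by
      have e1 : (4 : ℝ) ^ u = 2 ^ (2 * (u : ℝ)) := by
        rw [Real.rpow_mul (by norm_num), Real.rpow_natCast]; norm_num
      have e2 : (2 : ℝ) * 2 ^ ((e : ℝ) + (kn n * s + 2 + ((δ : ℝ) - th0 * s))) =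
          2 ^ (1 + ((e : ℝ) + (kn n * s + 2 + ((δ : ℝ) - th0 * s)))) := by
        rw [Real.rpow_add (by norm_num) 1, Real.rpow_one]
      rw [e1, e2]
      apply Real.rpow_le_rpow_of_exponent_le (by norm_num)
      linarith
    have h5 : |(ρ : ℝ)| ≤ 4 ^ u := by
      have : |(ρ : ℝ)| ≤ 2 * ((⌈((G : ℝ) + 2) * (b * (2 : ℝ) ^ ((δ : ℝ) - th0 * s))⌉₊ : ℕ) : ℝ) := by exact_mod_cast hρ
      linarith
    exact_mod_cast h5
  · refine le_trans ?_ hmass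
    rw [← Real.rpow_natCast]
    apply Real.rpow_le_rpow_of_exponent_le (by norm_num)
    linarith
  · refine TK_mono (a' := 1 * z ^ 12) (b' := 1 * z ^ 14) (by rw [one_mul]; exact hδz) (Nat.zero_le _) ?_
    intro σ hσ0 hσ g h0 h1 x X hX
    refine hTK σ hσ0 hσ g h0 h1 x X (le_trans ?_ (hmass.trans hX))
    apply Real.rpow_le_rpow_of_exponent_le (by norm_num)
    linarith

set_option maxHeartbeats 1000000 in
theorem t_PARK : S_PARK := by
  intro K θ τ hθ hθ1 hτθ hτ1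
  have hth := th0_gt
  have hth1 := th0_lt
  have hth0 := th0_pos
  have hτ : 0 < τ := by
    by_contra hcon
    push Not at hcon
    have : τ * th0 ≤ 0 := mul_nonpos_of_nonpos_of_nonneg hcon hth0.le
    linarith
  obtain ⟨γ, hγ⟩ : ∃ γ, γ = min ((τ - θ / th0) / 2) ((1 - θ) / 4) := ⟨_, rfl⟩
  have hτθ' : θ / th0 < τ := by rw [div_lt_iff₀ hth0]; exact hτθ
  have hγ0 : 0 < γ := by rw [hγ]; apply lt_min <;> linarith
  have hγ1 : γ ≤ (τ - θ / th0) / 2 := by rw [hγ]; exact min_le_left _ _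
  have hγ2 : γ ≤ (1 - θ) / 4 := by rw [hγ]; exact min_le_right _ _
  obtain ⟨C, hC⟩ : ∃ C, C = max 1 (θ / th0 / γ) := ⟨_, rfl⟩
  have hC0 : 1 ≤ C := by rw [hC]; exact le_max_left _ _
  have hC1 : θ / th0 / γ ≤ C := by rw [hC]; exact le_max_right _ _
  refine ⟨C, by linarith, fun ε ε₀ hε hε1 hε₀ hε₀1 G K₀ => ?_⟩
  obtain ⟨κ', hκ'⟩ : ∃ κ', κ' = (th0 + 1 / τ) / 2 := ⟨_, rfl⟩
  have h1τ : th0 < 1 / τ := by rw [lt_div_iff₀ hτ]; linarith
  have hκ'0 : th0 < κ' := by rw [hκ']; linarith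
  have hκ'1 : κ' * τ < 1 := by
    have : κ' < 1 / τ := by rw [hκ']; linarith
    rwa [lt_div_iff₀ hτ] at this
  obtain ⟨t₁, ht₁⟩ := TTK_all K κ' hκ'0 ε hε 1
  obtain ⟨c, hc, t₂, ht₂⟩ := ns_law hε
  -- the number of stages
  have hexn : ∀ᶠ n : ℕ in atTop, kn n ≤ th0 + ε ∧ kn n ≤ th0 + c * γ * th0 / (2 * θ) ∧ (4 / 5 : ℝ) ^ n ≤ 4 * γ * th0 / θ := by
    have h1 : Tendsto (fun n : ℕ => (4 / 5 : ℝ) ^ n) atTop (nhds 0) :=
      tendsto_pow_atTop_nhds_zero_of_lt_one (by norm_num) (by norm_num)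
    filter_upwards [kn_tendsto.eventually_le_const (show th0 < th0 + ε by linarith),
      kn_tendsto.eventually_le_const (show th0 < th0 + c * γ * th0 / (2 * θ) by
        have : 0 < c * γ * th0 / (2 * θ) := by positivity
        linarith), h1.eventually_le_const (show (0 : ℝ) < 4 * γ * th0 / θ by positivity)] with n a1 a2 a3
    exact ⟨a1, a2, a3⟩
  obtain ⟨n, hn1, hn2, hn3⟩ := hexn.exists
  refine ⟨n, hn1, ?_⟩
  obtain ⟨t₃, ht₃⟩ := ST_all n ε hε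
  obtain ⟨e, he1, he2⟩ := choose_e hε G
  obtain ⟨κ, hκ⟩ : ∃ κ, κ = kn n := ⟨_, rfl⟩
  have hκ0 : th0 < κ := by rw [hκ]; exact kn_gt n
  have hκ2 : κ ≤ 2 := by rw [hκ]; exact kn_le_two n
  rw [← hκ] at hn2
  obtain ⟨q, hq⟩ : ∃ q : ℝ, q = (4 / 5) ^ n := ⟨_, rfl⟩
  have hq0 : 0 < q := by rw [hq]; positivity
  have hq1 : q ≤ 1 := by rw [hq]; exact pow_le_one₀ (by norm_num) (by norm_num)
  rw [← hq] at hn3
  obtain ⟨ν, hν⟩ : ∃ ν, ν = min (min (q * θ / 8) (c * γ / 2)) (min ((1 - θ) / 4) ((1 - κ' * τ) / 2)) := ⟨_, rfl⟩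
  have hν0 : 0 < ν := by
    rw [hν]
    apply lt_min
    · apply lt_min <;> positivity
    · apply lt_min <;> linarith
  have hν1 : ν ≤ q * θ / 8 := by rw [hν]; exact (min_le_left _ _).trans (min_le_left _ _)
  have hν2 : ν ≤ c * γ / 2 := by rw [hν]; exact (min_le_left _ _).trans (min_le_right _ _)
  have hν3 : ν ≤ (1 - θ) / 4 := by rw [hν]; exact (min_le_right _ _).trans (min_le_left _ _)
  have hν4 : ν ≤ (1 - κ' * τ) / 2 := by rw [hν]; exact (min_le_right _ _).trans (min_le_right _ _)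
  obtain ⟨m₀, hm₀⟩ := delta_small (ν := ν * th0 / θ) (by positivity)
  obtain ⟨z₀, hz₀⟩ := Gy_small (C := 2 * C) (by linarith) hε
  obtain ⟨C₁, hC₁⟩ : ∃ C₁, C₁ = logb 2 (2 / ε₀) := ⟨_, rfl⟩
  have hC₁0 : 0 ≤ C₁ := by
    rw [hC₁]; apply Real.logb_nonneg (by norm_num)
    rw [le_div_iff₀ hε₀]; linarith
  obtain ⟨K₁, hK₁⟩ : ∃ K₁ : ℕ, K₁ = max (max (max K₀ t₁) (max t₃ m₀)) (max ((max z₀ 40) ^ 20) t₂) := ⟨_, rfl⟩
  have hLt : Tendsto (fun N : ℕ => logb 2 (N : ℝ)) atTop atTop :=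
    (Real.tendsto_logb_atTop (by norm_num)).comp tendsto_natCast_atTop_atTop
  have hcγ : 0 < c * γ := by positivity
  have hqθ : 0 < q * θ := by positivity
  have h1θ : 0 < 1 - θ := by linarith
  have h1κ : 0 < 1 - κ' * τ := by linarith
  filter_upwards [log_block hθ hε₀ hε₀1, eventually_ge_atTop 1,
    hLt.eventually_ge_atTop (2 / γ), hLt.eventually_ge_atTop ((K₁ + 1) / γ), hLt.eventually_ge_atTop ((2 * (K₁ + 1) + C₁) / θ),
    hLt.eventually_ge_atTop ((e + 5 + 2 * c) / (c * γ)), hLt.eventually_ge_atTop ((n + 6 + e + C₁ / 2) * 8 / (3 * (q * θ))),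
    hLt.eventually_ge_atTop (4 / (1 - θ)), hLt.eventually_ge_atTop (4 / (1 - κ' * τ)),
    hLt.eventually_ge_atTop (((τ * (C₁ + 2) + θ) / (th0 * τ * ε) + 1) / τ)] with N hblk hN1 l1 l2 l3 l4 l5 l6 l7 l8
  intro b s M hb hs hNM
  obtain ⟨hb1, hβ1, hβ2⟩ := hblk b hb
  rw [← hC₁] at hβ1
  rw [← hκ] at hs ⊢
  have hN0 : (0 : ℝ) < N := by exact_mod_cast hN1
  have h2L : (2 : ℝ) ^ (logb 2 (N : ℝ)) = N := Real.rpow_logb (by norm_num) (by norm_num) hN0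
  have ht : tN τ N = ⌊τ * logb 2 (N : ℝ)⌋₊ := rfl
  rw [ht]
  obtain ⟨L, hL⟩ : ∃ L, L = logb 2 (N : ℝ) := ⟨_, rfl⟩
  rw [← hL] at l1 l2 l3 l4 l5 l6 l7 l8 h2L hβ1 hβ2 ⊢
  rw [div_le_iff₀ hγ0] at l1 l2
  rw [div_le_iff₀ hθ] at l3
  rw [div_le_iff₀ hcγ] at l4
  rw [div_le_iff₀ (by positivity)] at l5
  rw [div_le_iff₀ h1θ] at l6
  rw [div_le_iff₀ h1κ] at l7
  rw [div_le_iff₀ hτ] at l8
  have hL0 : 0 < L := by
    by_contra hcon
    push Not at hcon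
    have : L * γ ≤ 0 := mul_nonpos_of_nonpos_of_nonneg hcon hγ0.le
    linarith
  obtain ⟨β, hβ⟩ : ∃ β, β = logb 2 (b : ℝ) := ⟨_, rfl⟩
  have hb0 : (0 : ℝ) < b := by exact_mod_cast hb1
  have h2β : (2 : ℝ) ^ β = b := by rw [hβ]; exact Real.rpow_logb (by norm_num) (by norm_num) hb0
  rw [← hβ] at hβ1 hβ2 hs
  have hκ00 : 0 < κ := by linarith
  have hK₁0 : (0 : ℝ) ≤ K₁ := by positivity
  have hβ0 : 0 ≤ β := by linarith
  have hs1 : κ * s ≤ β := by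
    have : (s : ℝ) ≤ β / κ := by rw [hs]; exact Nat.floor_le (div_nonneg hβ0 hκ00.le)
    rw [le_div_iff₀ hκ00] at this
    linarith
  have hs2 : β < κ * (s + 1) := by
    have : β / κ < s + 1 := by rw [hs]; exact Nat.lt_floor_add_one _
    rw [div_lt_iff₀ hκ00] at this
    linarith
  have hsr0 : (0 : ℝ) ≤ s := by positivity
  have hsθ : th0 * s ≤ θ * L := by
    have := mul_le_mul_of_nonneg_right hκ0.le hsr0
    linarith
  have hs3 : (s : ℝ) ≤ θ / th0 * L := by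
    rw [div_mul_eq_mul_div, le_div_iff₀ hth0]; linarith
  have hs4 : (θ * L - C₁) / 2 - 1 ≤ s := by
    have : κ * ((s : ℝ) + 1) ≤ 2 * (s + 1) := mul_le_mul_of_nonneg_right hκ2 (by linarith)
    linarith
  have hτL : 0 ≤ τ * L := by positivity
  obtain ⟨t, htd⟩ : ∃ t : ℕ, t = ⌊τ * L⌋₊ := ⟨_, rfl⟩
  have ht1 : (t : ℝ) ≤ τ * L := by rw [htd]; exact Nat.floor_le hτL
  have ht2 : τ * L < t + 1 := by rw [htd]; exact Nat.lt_floor_add_one _
  have hγL : 2 * γ * L ≤ (τ - θ / th0) * L := mul_le_mul_of_nonneg_right (by linarith) hL0.le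
  have hts : (s : ℝ) + γ * L ≤ t := by
    have e1 : (τ - θ / th0) * L = τ * L - θ / th0 * L := by ring
    rw [e1] at hγL
    linarith
  have hst : s ≤ t := by
    have : 0 ≤ γ * L := by positivity
    have : (s : ℝ) ≤ t := by linarith
    exact_mod_cast this
  obtain ⟨k, hk⟩ := Nat.exists_eq_add_of_le hst
  have hkr : (t : ℝ) = s + k := by rw [hk]; push_cast; ring
  have hkL : γ * L ≤ k := by linarith
  obtain ⟨k', hk'⟩ : ∃ k', k' = ⌊γ * L⌋₊ := ⟨_, rfl⟩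
  have hγL0 : 0 ≤ γ * L := by positivity
  have hk'1 : (k' : ℝ) ≤ γ * L := by rw [hk']; exact Nat.floor_le hγL0
  have hk'2 : γ * L < k' + 1 := by rw [hk']; exact Nat.lt_floor_add_one _
  obtain ⟨u, hu⟩ : ∃ u, u = ⌊c * k'⌋₊ := ⟨_, rfl⟩
  have hck' : 0 ≤ c * (k' : ℝ) := by positivity
  have hu1 : (u : ℝ) ≤ c * k' := by rw [hu]; exact Nat.floor_le hck'
  have hu2 : c * k' < u + 1 := by rw [hu]; exact Nat.lt_floor_add_one _
  have hC5 : k' ≤ k := by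
    have : (k' : ℝ) ≤ k := by linarith
    exact_mod_cast this
  have hkK : K₁ ≤ k := by
    have : (K₁ : ℝ) ≤ k := by linarith
    exact_mod_cast this
  have hk'K : K₁ ≤ k' := by
    have : (K₁ : ℝ) ≤ k' := by linarith
    exact_mod_cast this
  have hsK : K₁ ≤ s := by
    have : (K₁ : ℝ) ≤ s := by linarith
    exact_mod_cast this
  have hK₀ : K₀ ≤ K₁ ∧ t₁ ≤ K₁ ∧ t₃ ≤ K₁ ∧ m₀ ≤ K₁ ∧ (max z₀ 40) ^ 20 ≤ K₁ ∧ t₂ ≤ K₁ := by
    rw [hK₁]
    exact ⟨(le_max_left _ _).trans ((le_max_left _ _).trans (le_max_left _ _)),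
      (le_max_right _ _).trans ((le_max_left _ _).trans (le_max_left _ _)),
      (le_max_left _ _).trans ((le_max_right _ _).trans (le_max_left _ _)),
      (le_max_right _ _).trans ((le_max_right _ _).trans (le_max_left _ _)),
      (le_max_left _ _).trans (le_max_right _ _), (le_max_right _ _).trans (le_max_right _ _)⟩
  obtain ⟨j1, j2, j3, j4, j5, j6⟩ := hK₀
  obtain ⟨z, hz1, hz2⟩ := root20 (min s k)
  have hmK : K₁ ≤ min s k := le_min hsK hkK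
  have hzz : max z₀ 40 ≤ z := root_ge (j5.trans hmK) hz2
  rw [max_le_iff] at hzz
  have hzk : z ^ 20 ≤ k := hz1.trans (min_le_right _ _)
  have hδ1 := hm₀ (min s k) (j4.trans hmK) z hz1
  have hsCk : (s : ℝ) ≤ C * k := by
    have h1 : θ / th0 ≤ C * γ := by rwa [div_le_iff₀ hγ0] at hC1
    calc (s : ℝ) ≤ θ / th0 * L := hs3
      _ ≤ (C * γ) * L := mul_le_mul_of_nonneg_right h1 hL0.le
      _ = C * (γ * L) := by ring
      _ ≤ C * k := mul_le_mul_of_nonneg_left hkL (by linarith)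
  have hsm : (s : ℝ) ≤ C * ((min s k : ℕ) : ℝ) := by
    rcases le_total s k with h | h
    · rw [min_eq_left h]
      calc (s : ℝ) = 1 * s := (one_mul _).symm
        _ ≤ C * s := mul_le_mul_of_nonneg_right hC0 hsr0
    · rw [min_eq_right h]; exact hsCk
  have hz20 : ((min s k : ℕ) : ℝ) ≤ 2 * (z : ℝ) ^ 20 := by
    have h1 : ((min s k : ℕ) : ℝ) ≤ ((2 * z ^ 20 : ℕ) : ℝ) := Nat.cast_le.2 (hz2.le.trans (succ20 hzz.2))
    rwa [Nat.cast_mul, Nat.cast_pow, Nat.cast_ofNat] at h1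
  have hδz : z ^ 11 ≤ z ^ 12 := Nat.pow_le_pow_right (by omega) (by norm_num)
  have hTA := ht₁ k (j2.trans hkK) z hzk
  have hsz : (s : ℝ) ≤ 2 * C * (z : ℝ) ^ 20 := by
    calc (s : ℝ) ≤ C * ((min s k : ℕ) : ℝ) := hsm
      _ ≤ C * (2 * (z : ℝ) ^ 20) := mul_le_mul_of_nonneg_left hz20 (by linarith)
      _ = 2 * C * (z : ℝ) ^ 20 := by ring
  have hs1' : 1 ≤ s :=
    (Nat.one_le_pow 20 (max z₀ 40) (lt_of_lt_of_le (by norm_num) (le_max_right z₀ 40))).trans (j5.trans hsK)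
  have hGy := hz₀ z hzz.1 s hs1' hsz
  have hδ2 : ((z ^ 11 : ℕ) : ℝ) ≤ ν * L := by
    refine hδ1.trans ?_
    have h1 : ((min s k : ℕ) : ℝ) ≤ θ / th0 * L := by
      refine le_trans ?_ hs3
      exact Nat.cast_le.2 (min_le_left _ _)
    calc ν * th0 / θ * ((min s k : ℕ) : ℝ) ≤ ν * th0 / θ * (θ / th0 * L) := mul_le_mul_of_nonneg_left h1 (by positivity)
      _ = ν * L := by field_simp
  obtain ⟨δ, hδ⟩ : ∃ δ, δ = z ^ 11 := ⟨_, rfl⟩
  rw [← hδ] at hδ2 hGy hδz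
  clear hz1 hz2 hzk hδ1 hδ hz20 hsz hmK j5
  have hνL1 : ν * L ≤ q * θ / 8 * L := mul_le_mul_of_nonneg_right hν1 hL0.le
  have hνL2 : ν * L ≤ c * γ / 2 * L := mul_le_mul_of_nonneg_right hν2 hL0.le
  have hνL3 : ν * L ≤ (1 - θ) / 4 * L := mul_le_mul_of_nonneg_right hν3 hL0.le
  have hνL4 : ν * L ≤ (1 - κ' * τ) / 2 * L := mul_le_mul_of_nonneg_right hν4 hL0.le
  have hγL2 : γ * L ≤ (1 - θ) / 4 * L := mul_le_mul_of_nonneg_right hγ2 hL0.le
  have hPF : PFK K n s k k' δ b M (⌈((G : ℝ) + 2) * (b * (2 : ℝ) ^ ((δ : ℝ) - th0 * s))⌉₊) G ε ε := by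
    apply PFK_of (e := e) (u := u) (z := z) (N := N) (κ' := κ') (L := L) hε hε1 hε.le h2L.le
    · rw [← hκ, ← h2β]
      exact Real.rpow_le_rpow_of_exponent_le (by norm_num) hs1
    · rw [← hκ, ← h2β]
      apply Real.rpow_le_rpow_of_exponent_le (by norm_num)
      linarith
    · exact hNM
    · exact he1
    · exact he2
    · -- C1
      rw [← hq]
      have h1 : q * ((θ * L - C₁) / 2 - 1) ≤ q * s := mul_le_mul_of_nonneg_left hs4 hq0.le
      have h2 : q * (C₁ / 2 + 1) ≤ 1 * (C₁ / 2 + 1) := mul_le_mul_of_nonneg_right hq1 (by linarith)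
      have h3 : q * ((θ * L - C₁) / 2 - 1) = q * θ * L / 2 - q * (C₁ / 2 + 1) := by ring
      rw [h3] at h1
      linarith
    · -- C2
      rw [← hκ]
      have h1 : (κ - th0) * s ≤ (c * γ * th0 / (2 * θ)) * (θ / th0 * L) :=
        mul_le_mul (by linarith) hs3 hsr0 (by positivity)
      have h2 : (c * γ * th0 / (2 * θ)) * (θ / th0 * L) = c * γ / 2 * L := by field_simp
      have h3 : c * (γ * L) ≤ c * (k' + 1) := mul_le_mul_of_nonneg_left hk'2.le hc.le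
      rw [h2] at h1
      linarith
    · -- C3
      linarith
    · -- C4
      have h1 : th0 * s ≤ κ' * s := mul_le_mul_of_nonneg_right hκ'0.le hsr0
      have h2 : κ' * ((s : ℝ) + k) ≤ κ' * (τ * L) := mul_le_mul_of_nonneg_left (by linarith) (by linarith)
      linarith
    · exact hC5
    · intro ρ hρ
      have h1 := ht₂ k' (j6.trans hk'K) 0 u (by simp; positivity) hu1 ρ hρ
      rw [U_zero, sub_zero] at h1
      exact (le_abs_self _).trans h1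
    · exact hTA
    · exact hδz
  refine ⟨k, k', δ, _, ln n s / 8, ?_, hPF, ?_, ?_, hGy, j1.trans hkK, j1.trans hsK, hsCk, ?_⟩
  · rw [← htd]; omega
  · -- the length of the last stage
    have h1 := ln_le n s
    rw [← hq] at h1
    have h2 : q * s ≤ (4 * γ * th0 / θ) * (θ / th0 * L) := mul_le_mul hn3 hs3 hsr0 (by positivity)
    have h3 : (4 * γ * th0 / θ) * (θ / th0 * L) = 4 * (γ * L) := by field_simp
    rw [h3] at h2
    have h4 : ((ln n s / 8 : ℕ) : ℝ) ≤ k := by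
      have h5 : ((ln n s / 8 : ℕ) : ℝ) ≤ (ln n s : ℝ) / 8 := by
        have := Nat.cast_div_le (α := ℝ) (m := ln n s) (n := 8)
        simpa using this
      linarith
    exact_mod_cast h4
  · intro Φ hI h0 h1 o a
    apply ht₃ s (j3.trans hsK) Φ hI h0 h1 o a b
    have : th0 + (9 / 10 : ℝ) ^ n * (2 - th0) = κ := by rw [hκ]; rfl
    rw [this, ← h2β]
    exact Real.rpow_le_rpow_of_exponent_le (by norm_num) hs1
  · -- the ratio
    have ht0 : (0 : ℝ) < s + k := by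
      have : (1 : ℝ) ≤ s := by exact_mod_cast hs1'
      have : (0 : ℝ) ≤ k := by positivity
      linarith
    rw [div_sub_div _ _ ht0.ne' (by positivity), abs_div, abs_of_pos (show 0 < ((s : ℝ) + k) * (κ * τ) by positivity),
      div_le_iff₀ (by positivity)]
    have h1 : |(s : ℝ) * (κ * τ) - (s + k) * θ| ≤ τ * (C₁ + 2) + θ := by
      have e1 : (s : ℝ) * (κ * τ) - (s + k) * θ = τ * (κ * s - θ * L) + θ * (τ * L - (s + k)) := by ring
      rw [e1]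
      have h2 : |κ * s - θ * L| ≤ C₁ + 2 := by
        rw [abs_le]
        constructor <;> linarith
      have h3 : |τ * L - ((s : ℝ) + k)| ≤ 1 := by
        rw [abs_le]
        constructor <;> linarith
      refine (abs_add_le _ _).trans ?_
      rw [abs_mul, abs_mul, abs_of_pos hτ, abs_of_pos hθ]
      have := mul_le_mul_of_nonneg_left h2 hτ.le
      have := mul_le_mul_of_nonneg_left h3 hθ.le
      linarith
    refine h1.trans ?_
    have h4 : (τ * (C₁ + 2) + θ) / (th0 * τ * ε) ≤ s + k := by linarith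
    rw [div_le_iff₀ (by positivity)] at h4
    refine h4.trans ?_
    have h5 : (s + k : ℝ) * (th0 * τ * ε) = ε * ((s + k) * (th0 * τ)) := by ring
    rw [h5]
    apply mul_le_mul_of_nonneg_left _ hε.le
    apply mul_le_mul_of_nonneg_left _ ht0.le
    exact mul_le_mul_of_nonneg_right hκ0.le hτ.le


end Pool.Agent.J4H75.KT
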